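import Mathlib
import Pool.Agent.H147R3.KH.Five
set_option autoImplicit false

/-!
# MP_b1773a: full Hausdorff dimension of Kakeya sets for almost every dilation of the positions

Let `n = d + 3`.  Points of `ℝ^n` are written `(x, t)` with `x ∈ ℝ^(n-1)`, `t ∈ ℝ`.  A Borel family
of lines, one for each direction `(v, 1)`, `v ∈ ℝ^(n-1)`, is given by the points `(p v, 0)` where the
lines cross the hyperplane `t = 0`.  Multiply the last `n - 2` coordinates of all these points by
`m_1, ..., m_(n-2)` and keep all the directions: this is the family of lines `ℓ_m(v)`.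

For Lebesgue almost every `m`, every set `K` of Hausdorff dimension less than `n` (`K` may depend on
`m`) meets the line `ℓ_m(v)` in a set of length zero, for almost every `v`.  In particular a set
that contains a segment of `ℓ_m(v)` for every `v` (or for `v` in a set of positive measure) has
Hausdorff dimension `n`.  More generally, if `μ (B(x, r)) ≤ A r^γ` for all balls, the same holds for
`μ`-almost every `m` with `n` replaced by `2 + γ`.
-/

namespace Pool.Agent.Results.MP_b1773a_an.GenericDilates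

open MeasureTheory Set Metric
open scoped ENNReal NNReal

/-- The point at height `t` of the line in direction `(v, 1)` through
`((p v)_0, m_0 (p v)_1, ..., m_d (p v)_(d+1), 0)`. -/
def linePoint {d : ℕ} (p : (Fin (d + 2) → ℝ) → (Fin (d + 2) → ℝ)) (m : Fin (d + 1) → ℝ)
    (v : Fin (d + 2) → ℝ) (t : ℝ) : (Fin (d + 2) → ℝ) × ℝ :=
  (fun j => (Fin.cons 1 m : Fin (d + 2) → ℝ) j * p v j + t * v j, t)

/-- **Kakeya sets with generically dilated positions have full Hausdorff dimension.** -/
theorem result (d : ℕ) (A γ : ℝ) (hA : 0 ≤ A) (hγ : γ ≤ d + 1) (μ : Measure (Fin (d + 1) → ℝ))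
    (hμ : ∀ x : Fin (d + 1) → ℝ, ∀ r : ℝ, 0 < r →
      μ (closedBall x r) ≤ ENNReal.ofReal (A * r ^ γ))
    (p : (Fin (d + 2) → ℝ) → (Fin (d + 2) → ℝ)) (hp : Measurable p) :
    ∀ᵐ m ∂μ, ∀ K : Set ((Fin (d + 2) → ℝ) × ℝ), dimH K < ENNReal.ofReal (2 + γ) →
      ∀ᵐ v : Fin (d + 2) → ℝ, volume {t : ℝ | linePoint p m v t ∈ K} = 0 := by
  filter_upwards [Pool.Agent.H147R3.KH.main A γ hA hγ μ hμ p hp] with m hm K hK
  obtain ⟨s, hs1, hs2⟩ := ENNReal.lt_iff_exists_nnreal_btwn.1 hK
  have h0 : μH[(s : ℝ)] K = 0 := hausdorffMeasure_of_dimH_lt hs1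
  set K' : Set ((Fin (d + 2) → ℝ) × ℝ) := toMeasurable (μH[(s : ℝ)]) K with hK'
  have hK'm : MeasurableSet K' := measurableSet_toMeasurable _ _
  have hK'0 : μH[(s : ℝ)] K' = 0 := by rw [hK', measure_toMeasurable, h0]
  have hdim : dimH K' ≤ s := dimH_le_of_hausdorffMeasure_ne_top (by rw [hK'0]; exact ENNReal.zero_ne_top)
  have hnull : volume {z | Pool.Agent.H147R3.KH.gam p m z ∈ K'} = 0 := by
    by_contra hcon
    exact absurd ((hm K' hcon).trans hdim) (not_le.2 hs2)
  have hmeas : MeasurableSet {z | Pool.Agent.H147R3.KH.gam p m z ∈ K'} :=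
    Pool.Agent.H147R3.KH.gam_m hp m hK'm
  rw [Measure.volume_eq_prod, Measure.measure_prod_null hmeas] at hnull
  filter_upwards [hnull] with v hv
  refine measure_mono_null ?_ hv
  intro t ht
  exact subset_toMeasurable _ _ ht

end Pool.Agent.Results.MP_b1773a_an.GenericDilates
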