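import Pool.Agent.H023R3.KakGen

set_option autoImplicit false

/-!
# MP_b1773a: the Kakeya conjecture for almost every linear perturbation of every family of lines

Let `n = d + 1` and let `a : ℝ^d → ℝ^d` be any measurable function: `a` selects the line
`{(a v + t v, t) : t ∈ ℝ}` in direction `(v, 1)`, for every `v ∈ ℝ^d`.  We perturb the family by a
diagonal linear map `v ↦ (l_1 v_1, ..., l_d v_d)`.  For Lebesgue-almost every `l ∈ ℝ^d` every set
that meets the perturbed line number `v` in a set of positive length, for all `v` in a set of
positive outer measure, has full Hausdorff dimension `n`.  There is no assumption on `a` except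
measurability, and no assumption at all on the set.
-/

open MeasureTheory Set

namespace Pool.Agent.Results.MP_b1773a_an.GenericPerturbation

open Pool.Agent.H023R3.KG

/-- **Full Hausdorff dimension for almost every diagonal perturbation.** -/
theorem result (d : ℕ) (a : (Fin d → ℝ) → Fin d → ℝ) (ha : Measurable a) :
    ∀ᵐ l : Fin d → ℝ, ∀ (S : Set (Fin d → ℝ)) (K : Set (E (d + 1))), 0 < volume S →
      (∀ v ∈ S, 0 < volume {t : ℝ | pt a l v t ∈ K}) → dimH K = (d + 1 : ℕ) :=
  main ha

end Pool.Agent.Results.MP_b1773a_an.GenericPerturbation
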