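import Pool.Agent.H424R3.KakDim

set_option autoImplicit false

/-!
# MP_b1773a: Kakeya sets whose segments can be chosen Hölder-continuously

Let `2 ≤ k ≤ n`, let `W` be a `k`-dimensional subspace of `ℝ^n` (`W = ℝ^n` if `k = n`), let `K` be
compact and suppose that for the unit vectors `w ∈ W` in some open set `U` the set `K` contains a
segment `{a w + s w : 0 ≤ s ≤ ℓ}` with `a` Hölder of exponent `α > (k - 2) / (k - 1)` (on these
unit vectors).  Then `K` has positive `k`-dimensional Hausdorff measure; if `k = n` it has positive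
Lebesgue measure and full Hausdorff and Minkowski dimension.  In fact, for every such direction
`w`, all but at most `k - 1` of the hyperplanes orthogonal to `w` which cross the segment in
direction `w` meet `K` in a set of positive `(k-1)`-dimensional Hausdorff measure.
-/

open MeasureTheory Set Filter Topology
open scoped RealInnerProductSpace ENNReal

namespace Pool.Agent.Results.MP_b1773a_an.HolderSelection

open Pool.Agent.H424R3.Kak

/-- The lower Minkowski dimension `n - limsup_{δ → 0+} log |N_δ K| / log δ`. -/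
noncomputable def lowerMinkowski {n : ℕ} (K : Set (EuclideanSpace ℝ (Fin n))) : ℝ :=
  n - Filter.limsup (fun δ : ℝ => Real.log (volume (Metric.thickening δ K)).toReal / Real.log δ)
    (𝓝[>] 0)

theorem result (n k : ℕ) (hk : 2 ≤ k) (W : Submodule ℝ (EuclideanSpace ℝ (Fin n)))
    (hW : Module.finrank ℝ W = k)
    (K : Set (EuclideanSpace ℝ (Fin n))) (hK : IsCompact K)
    (U : Set (EuclideanSpace ℝ (Fin n))) (hU : IsOpen U) (hne : ∃ w ∈ U, w ∈ W ∧ ‖w‖ = 1)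
    (a : EuclideanSpace ℝ (Fin n) → EuclideanSpace ℝ (Fin n)) (ℓ : ℝ) (hℓ : 0 < ℓ)
    (hseg : ∀ w ∈ U, w ∈ W → ‖w‖ = 1 → ∀ s ∈ Icc 0 ℓ, a w + s • w ∈ K)
    (C α : ℝ) (hα : ((k : ℝ) - 2) / (k - 1) < α) (hα1 : α ≤ 1)
    (hHo : ∀ w ∈ U, w ∈ W → ‖w‖ = 1 → ∀ w' ∈ U, w' ∈ W → ‖w'‖ = 1 →
      ‖a w - a w'‖ ≤ C * ‖w - w'‖ ^ α) :
    (∀ w ∈ U, w ∈ W → ‖w‖ = 1 → {t : ℝ | t ∈ Ioo ⟪a w, w⟫ (⟪a w, w⟫ + ℓ) ∧
      μH[((k - 1 : ℕ) : ℝ)] (K ∩ {z | ⟪z, w⟫ = t}) = 0}.encard ≤ ((k - 1 : ℕ) : ℕ∞)) ∧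
    0 < μH[(k : ℝ)] K ∧ (k : ℝ≥0∞) ≤ dimH K ∧
    (k = n → 0 < volume K ∧ dimH K = n ∧ lowerMinkowski K = n) := by
  obtain ⟨d, rfl⟩ : ∃ d, k = d + 1 := ⟨k - 1, by omega⟩
  have hd : 1 ≤ d := by omega
  have hα' : ((d : ℝ) - 1) / d < α := by
    have h1 : (((d + 1 : ℕ) : ℝ) - 2) / (((d + 1 : ℕ) : ℝ) - 1) = ((d : ℝ) - 1) / d := by
      push_cast
      congr 1 <;> ring
    rwa [h1] at hα
  obtain ⟨h1, h2⟩ := main_W W hW hd K hK U hU a C α hα' hα1 hHo ℓ hseg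
  have h3 := h2 hℓ hne
  refine ⟨h1, h3, ?_, ?_⟩
  · have h4 : μH[((((d + 1 : ℕ) : NNReal)) : ℝ)] K ≠ 0 := by
      rw [NNReal.coe_natCast]; exact h3.ne'
    have := le_dimH_of_hausdorffMeasure_ne_zero h4
    simpa using this
  · intro hkn
    subst hkn
    have h5 : 0 < volume K := volume_pos_of_hausdorff (by simp) K h3
    exact ⟨h5, dimH_eq K h3, lowerMinkowskiDim_eq K hK h5⟩

end Pool.Agent.Results.MP_b1773a_an.HolderSelection
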