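import Pool.Agent.H023R3.KakSet

set_option autoImplicit false

/-!
# MP_b1773a: the Kakeya conjecture for sets whose segments lie on a reducible family of lines

A family of lines in `ℝ^n`, one line `a e + ℝ e` for each unit vector `e`, is *reducible*
(`Reducible n a`, recursive definition in `Pool.Agent.H742R2.Kk.Defs`) if `a` is measurable and
either `n ≤ 2`, or there is a subspace `W` of codimension two such that for every
half-hyperplane `H` bounded by `W` the lines of the family with direction in the interior of `H`
lie in one hyperplane parallel to `H` and form (part of) a reducible family there.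

No regularity is assumed: the products of the classical planar Besicovitch sets of measure zero
with cubes are of this kind.  We prove, in every dimension `n = m + 2 ≥ 2`:

* every set `K` (compact or not) that meets the line number `e` in a set of positive length, for
  all directions `e` in a set `S` of positive outer surface measure, has Hausdorff dimension `n`;
* if `K` contains a unit segment of the line number `e` for all `e` in `S`, then its
  `δ`-neighbourhood has measure at least `c |S| / (1 + log (1/δ))^(n-1)`, and its content with the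
  gauge `r^n (log (1/r))^(3n-1)` is at least `c |S|`.
-/

open MeasureTheory Set Filter Topology ENNReal NNReal Metric

namespace Pool.Agent.Results.MP_b1773a_an.ReducibleSelection

open Pool.Agent.H742R2.Kk Pool.Agent.H023R3.KS

/-- Surface measure (outer measure) of a set of directions. -/
noncomputable def surf {n : ℕ} (S : Set (sphere (0 : E n) 1)) : ℝ≥0∞ :=
  (volume : Measure (E n)).toSphere S

/-- `K` meets the line number `e` in a set of positive length, for all `e` in `S`. -/
def PosLength {n : ℕ} (a : E n → E n) (S : Set (sphere (0 : E n) 1)) (K : Set (E n)) : Prop :=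
  ∀ e ∈ S, 0 < volume {t : ℝ | a e + t • (e : E n) ∈ K}

/-- `K` contains a unit segment of the line number `e`, for all `e` in `S`. -/
def UnitSegs {n : ℕ} (a : E n → E n) (S : Set (sphere (0 : E n) 1)) (K : Set (E n)) : Prop :=
  ∀ e ∈ S, ∃ s : ℝ, ∀ t ∈ Icc (0 : ℝ) 1, a e + (s + t) • (e : E n) ∈ K

/-- The `δ`-neighbourhood of `K` has measure at least `c |S| / (1 + log (1/δ))^(n-1)`. -/
def NbhdBound {n : ℕ} (c : ℝ) (S : Set (sphere (0 : E n) 1)) (K : Set (E n)) : Prop :=
  ∀ δ : ℝ, 0 < δ → δ < 1 →
    ENNReal.ofReal (c / (1 + Real.log (1 / δ)) ^ (n - 1)) * surf S ≤ volume (thickening δ K)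

/-- For countable covers of `K` by balls of radii `r i ≤ 1/2`, the sum of
`(r i)^n (log (1/(r i)))^(3n-1)` is at least `c |S|`. -/
def ContentBound {n : ℕ} (c : ℝ) (S : Set (sphere (0 : E n) 1)) (K : Set (E n)) : Prop :=
  ∀ (x : ℕ → E n) (r : ℕ → ℝ), (∀ i, 0 < r i ∧ r i ≤ 1 / 2) → K ⊆ ⋃ i, closedBall (x i) (r i) →
    ENNReal.ofReal c * surf S ≤ ∑' i, ENNReal.ofReal (r i ^ n * Real.log (1 / r i) ^ (3 * n - 1))

/-- **Kakeya conjecture, Hausdorff and Minkowski form, for reducible families of lines**, in every
dimension `n ≥ 2`. -/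
theorem result (n : ℕ) (hn : 2 ≤ n) : ∃ c : ℝ, 0 < c ∧
    ∀ (a : E n → E n), Reducible n a → ∀ (S : Set (sphere (0 : E n) 1)) (K : Set (E n)),
      (PosLength a S K → 0 < surf S → dimH K = n) ∧
      (UnitSegs a S K → NbhdBound c S K ∧ ContentBound c S K) := by
  obtain ⟨m, rfl⟩ : ∃ m, n = m + 1 := ⟨n - 1, by omega⟩
  obtain ⟨c₁, hc₁, h₁⟩ := mink m
  obtain ⟨c₂, hc₂, h₂⟩ := content m (lam := 1 / 4) (by norm_num)
  refine ⟨min c₁ c₂, lt_min hc₁ hc₂, ?_⟩
  intro a ha S K
  refine ⟨fun hK hS => dim_eq m a S K ha hK hS, fun hK => ⟨?_, ?_⟩⟩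
  · intro δ hδ hδ1
    refine le_trans ?_ (h₁ a S K ha hK δ hδ hδ1)
    have hlog : 0 ≤ Real.log (1 / δ) := Real.log_nonneg (by rw [le_div_iff₀ hδ]; linarith)
    simp only [Nat.add_sub_cancel, surf]
    gcongr
    exact min_le_left _ _
  · intro x r hr hcov
    refine le_trans ?_ (h₂ a S K ha (fun e he => segs_len hK he) x r hr hcov)
    simp only [surf]
    gcongr
    exact min_le_right _ _

end Pool.Agent.Results.MP_b1773a_an.ReducibleSelection
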